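import Pool.Agent.SMF.Fin
import Pool.Agent.SMF.CtY

/-!
# Invariants of finite `p`-groups of automorphisms of free algebras are free ideal rings
-/

namespace Pool.Agent.Results.MP_5e1856_al.FreeIdealRings

open Pool.Agent.Helper71.FreeDefs

/-- All left and all right ideals of `S` are free, and free modules of finite rank have a unique rank. -/
def IsFir (S : Type*) [Ring S] : Prop :=
  InvariantBasisNumber S ∧ (∀ I : Submodule S S, Module.Free S I) ∧
    ∀ I : Submodule Sᵐᵒᵖ S, Module.Free Sᵐᵒᵖ I

/-- All countably generated left and right ideals of `S` are free, and free modules of finite rank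
have a unique rank. -/
def IsCountableFir (S : Type*) [Ring S] : Prop :=
  InvariantBasisNumber S ∧ (∀ a : ℕ → S, Module.Free S (Submodule.span S (Set.range a))) ∧
    ∀ a : ℕ → S, Module.Free Sᵐᵒᵖ (Submodule.span Sᵐᵒᵖ (Set.range a))

private theorem ext_case {k X : Type*} [Field k] (G N : Subgroup (FreeAlgebra k X ≃ₐ[k] FreeAlgebra k X))
    (hle : N ≤ G) (hnormal : (N.subgroupOf G).Normal) (hN : IsFree (invariants N)) (p a : ℕ) (hp : p.Prime)
    (hindex : N.relIndex G = p ^ a) :
    (Countable X → IsFir (invariants G)) ∧ IsCountableFir (invariants G) := by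
  obtain ⟨Y, hY⟩ := hN
  let E : FreeAlgebra k Y ≃ₐ[k] invariants N := AlgEquiv.ofBijective _ hY
  have hnor : ∀ g ∈ G, ∀ n ∈ N, g⁻¹ * n * g ∈ N := by
    intro g hg n hn
    have h1 := hnormal.conj_mem ⟨n, hle hn⟩ (Subgroup.mem_subgroupOf.mpr hn) ⟨g⁻¹, inv_mem hg⟩
    have h2 := Subgroup.mem_subgroupOf.mp h1
    simpa using h2
  obtain ⟨H, e', hH, ⟨σ⟩⟩ := Pool.Agent.SMF.ext_main G N hle hnor hp hindex E
  refine ⟨?_, ?_⟩
  · intro hX
    have hYc : Countable Y := by
      apply Pool.Agent.SMF.countable_of_emb (k := k) (X := X)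
        ((Subalgebra.val (invariants N)).toLinearMap ∘ₗ E.toLinearMap)
      intro x y h
      exact E.injective (Subtype.ext h)
    exact Pool.Agent.SMF.fir_transport σ (Pool.Agent.SMF.fin_fir H hp hH)
  · exact Pool.Agent.SMF.cfir_transport σ (Pool.Agent.SMF.fin_cfir H hp hH)

/-- Let `G` be a group of automorphisms of `k⟨X⟩`.  Suppose that `G` is finite of prime power order, or,
more generally, that `G` has a normal subgroup `N` of prime power index whose algebra of invariants is
free.  Then the algebra of invariants of `G` is a free ideal ring if `X` is countable, and for every `X`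
all its countably generated one sided ideals are free. -/
theorem result {k X : Type*} [Field k] (G : Subgroup (FreeAlgebra k X ≃ₐ[k] FreeAlgebra k X)) (p a : ℕ)
    (hp : p.Prime)
    (h : Nat.card G = p ^ a ∨ ∃ N ≤ G, (N.subgroupOf G).Normal ∧ IsFree (invariants N) ∧
      N.relIndex G = p ^ a) :
    (Countable X → IsFir (invariants G)) ∧ IsCountableFir (invariants G) := by
  rcases h with h | ⟨N, hle, hnormal, hN, hindex⟩
  · exact ⟨fun hX => Pool.Agent.SMF.fin_fir G hp h, Pool.Agent.SMF.fin_cfir G hp h⟩
  · exact ext_case G N hle hnormal hN p a hp hindex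

end Pool.Agent.Results.MP_5e1856_al.FreeIdealRings
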