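import Pool.Agent.Helper65.InfInv4

namespace Pool.Agent.Results.MP_5e1856_al.InfiniteGroups

open Pool.Agent.Helper71.FreeDefs Pool.Agent.Helper65.InfInv

universe u v

/-- For every field `k` and every infinite set `X` there is an abelian group `G` of automorphisms
of `k⟨X⟩`, of exponent `p` if `k` has characteristic `p > 0`, each element of which moves only
finitely many variables, such that the algebra of invariants of `G` is not free. -/
theorem result (k : Type u) [Field k] (X : Type v) [Infinite X] :
    ∃ G : Subgroup (FreeAlgebra k X ≃ₐ[k] FreeAlgebra k X),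
      (∀ g ∈ G, ∀ h ∈ G, g * h = h * g) ∧
      (∀ p : ℕ, CharP k p → ∀ g ∈ G, g ^ p = 1) ∧
      (∀ g ∈ G, {x : X | g (FreeAlgebra.ι k x) ≠ FreeAlgebra.ι k x}.Finite) ∧
      ¬ IsFree (invariants G) := by
  obtain ⟨j, hj⟩ := exists_emb X
  exact ⟨grp hj, grp_comm hj, grp_exp hj, fin_moved hj, not_free hj⟩

end Pool.Agent.Results.MP_5e1856_al.InfiniteGroups
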