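import Pool.Agent.Helper26.FI.Tri
import Pool.Agent.Helper26.FI.Tr2

/-!
# Finite groups of automorphisms of the free algebra of rank two
-/

namespace Pool.Agent.Results.MP_5e1856_al.PlaneGroups

open Pool.Agent.Helper71.FreeDefs

universe u

variable {k : Type u} [Field k]

/-- The group of automorphisms of `k⟨x, y⟩`. -/
abbrev Aut (k : Type u) [Field k] : Type u := FreeAlgebra k (Fin 2) ≃ₐ[k] FreeAlgebra k (Fin 2)

/-- Every `g` in `G` is of the form `x ↦ a x + b`, `y ↦ c y + q(x)`. -/
def Triangular (G : Subgroup (Aut k)) : Prop :=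
  ∀ g ∈ G, (∃ a b : k, g (FreeAlgebra.ι k 0) =
      a • FreeAlgebra.ι k 0 + algebraMap k (FreeAlgebra k (Fin 2)) b) ∧
    ∃ (c : k) (q : Polynomial k), g (FreeAlgebra.ι k 1) =
      c • FreeAlgebra.ι k 1 + Polynomial.aeval (FreeAlgebra.ι k 0) q

/-- Every `g` in `G` maps `x` and `y` into the span of `1, x, y`. -/
def Affine (G : Subgroup (Aut k)) : Prop :=
  ∀ g ∈ G, ∀ i, g (FreeAlgebra.ι k i) ∈
    Submodule.span k (insert 1 (Set.range (FreeAlgebra.ι k)))

/-- The polynomials `q` such that `x ↦ x`, `y ↦ y + q(x)` is in `G`. -/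
def shears (G : Subgroup (Aut k)) : Set (Polynomial k) :=
  {q | ∃ g ∈ G, g (FreeAlgebra.ι k 0) = FreeAlgebra.ι k 0 ∧
    g (FreeAlgebra.ι k 1) = FreeAlgebra.ι k 1 + Polynomial.aeval (FreeAlgebra.ι k 0) q}

/-- Invariants of finite groups of automorphisms of `k⟨x, y⟩`. -/
theorem result (G : Subgroup (Aut k)) [Finite G] (φ : Aut k)
    (h : (Triangular (G.map (MulAut.conj φ).toMonoidHom) ∧
        ∃ L : Set (Polynomial k), LinearIndependent k ((↑) : L → Polynomial k) ∧
          shears (G.map (MulAut.conj φ).toMonoidHom) = AddSubgroup.closure L ∧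
          (CharP k 2 ∨ L.Subsingleton)) ∨
      (Nat.card k = 2 ∧ Affine (G.map (MulAut.conj φ).toMonoidHom))) :
    IsFree (invariants G) := by
  apply Helper26.FI.isFree_conj φ G
  have hfin : Finite (G.map (MulAut.conj φ).toMonoidHom) := by
    have : Finite ((G : Set (Aut k)) : Type _) := ‹Finite G›
    exact Set.Finite.image _ this
  rcases h with ⟨htri, L, hLI, hW, hcase⟩ | ⟨hk, haff⟩
  · classical
    set G' := G.map (MulAut.conj φ).toMonoidHom with hG'
    have hLfin : L.Finite := by
      have h1 : (shears G').Finite := by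
        have h2 : ∀ q : shears G', ∃ g : G', (g : Aut k) (FreeAlgebra.ι k 1) =
            FreeAlgebra.ι k 1 + Polynomial.aeval (FreeAlgebra.ι k 0) (q : Polynomial k) := by
          rintro ⟨q, g, hg, _, hgy⟩
          exact ⟨⟨g, hg⟩, hgy⟩
        choose F hF using h2
        refine Finite.of_injective F ?_
        intro a b hab
        apply Subtype.ext
        have h3 := hF a
        rw [hab, hF b] at h3
        have h4 := (add_left_cancel h3).symm
        let e : FreeAlgebra k (Fin 2) →ₐ[k] Polynomial k :=
          FreeAlgebra.lift k (fun i : Fin 2 => if i = 0 then Polynomial.X else 0)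
        have h5 : ∀ q : Polynomial k, e (Polynomial.aeval (FreeAlgebra.ι k 0) q) = q := by
          intro q
          rw [← Polynomial.aeval_algHom_apply]
          simp [e]
        have h6 := congrArg e h4
        rwa [h5, h5] at h6
      refine h1.subset ?_
      rw [hW]
      exact AddSubgroup.subset_closure
    have hmem : ∀ q, q ∈ hLfin.toFinset.toList ↔ q ∈ L := by
      intro q
      rw [Finset.mem_toList, Set.Finite.mem_toFinset]
    refine Helper26.FI.tri_all G' htri hLfin.toFinset.toList ?_ ?_ ?_
    · let τ : Fin hLfin.toFinset.toList.length → L := fun i =>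
        ⟨hLfin.toFinset.toList.get i, (hmem _).1 (List.get_mem _ _)⟩
      have hτ : Function.Injective τ := by
        intro i j hij
        have h1 := congrArg Subtype.val hij
        exact (List.nodup_iff_injective_get.1 (Finset.nodup_toList _)) h1
      exact hLI.comp τ hτ
    · rcases hcase with h | h
      · exact Or.inl h
      · right
        rw [Finset.length_toList]
        refine Finset.card_le_one.2 (fun a ha b hb => ?_)
        exact h (by simpa using ha) (by simpa using hb)
    · intro q
      have h1 : {f : Polynomial k | f ∈ hLfin.toFinset.toList} = L := by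
        ext q
        exact hmem q
      rw [h1]
      have h2 : q ∈ shears G' ↔ q ∈ AddSubgroup.closure L := by
        rw [hW]
        exact Iff.rfl
      exact h2
  · have hfk : Finite k := Nat.finite_of_card_ne_zero (by omega)
    have := Fintype.ofFinite k
    have hck : Fintype.card k = 2 := by rw [← Nat.card_eq_fintype_card, hk]
    exact Helper26.FI.aff_two (ZMod.ringEquivOfPrime k Nat.prime_two hck) _ haff

end Pool.Agent.Results.MP_5e1856_al.PlaneGroups
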