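import Pool.Agent.Helper71.FreeThms

namespace Pool.Agent.Results.MP_5e1856_al.TriangularGroups

open Pool.Agent.Helper71.FreeDefs

universe u v

/-- Let `X` be well ordered and let `G` be a finite group of triangular automorphisms of `k⟨X⟩`.
If every nontrivial unitriangular element of `G` moves the first variable it moves by a constant,
then the algebra of invariants of `G` is free. -/
theorem result {k : Type u} {X : Type v} [Field k] [LinearOrder X] [WellFoundedLT X]
    (G : Subgroup (FreeAlgebra k X ≃ₐ[k] FreeAlgebra k X)) [Finite G]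
    (htri : ∀ g ∈ G, ∀ x, ∃ a : k, g (FreeAlgebra.ι k x) - a • FreeAlgebra.ι k x ∈
      Algebra.adjoin k (FreeAlgebra.ι k '' Set.Iio x))
    (hfree : ∀ g ∈ G, g ≠ 1 →
      (∀ x, g (FreeAlgebra.ι k x) - FreeAlgebra.ι k x ∈
        Algebra.adjoin k (FreeAlgebra.ι k '' Set.Iio x)) →
      ∃ x, (∀ y, y < x → g (FreeAlgebra.ι k y) = FreeAlgebra.ι k y) ∧
        ∃ c : k, c ≠ 0 ∧
          g (FreeAlgebra.ι k x) = FreeAlgebra.ι k x + algebraMap k (FreeAlgebra k X) c) :
    IsFree (invariants G) :=
  Pool.Agent.Helper71.FreeThms.triangular G htri hfree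

end Pool.Agent.Results.MP_5e1856_al.TriangularGroups
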